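import Pool.Agent.Helper81.WA.Shared
import Pool.Agent.Helper48.ET.Pair

/-! Project WA, piece WA-8: two words of the same length. -/

set_option autoImplicit false

namespace Pool.Agent.Helper26.WA

open Finset
open Pool.Agent.Helper48.ET
open Pool.Agent.Helper3.WT (rp GG P0)
open Pool.Agent.Helper3.WA

variable {p : ℕ} [Fact p.Prime]

theorem trunc_eq_self {n : ℕ} {x : ℕ → ZMod p} (h : ∀ u, n < u → x u = 0) :
    trunc (n + 1) x = x := by
  funext u
  unfold trunc
  split_ifs with hu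
  · rfl
  · exact (h u (by omega)).symm

theorem same_finite {C n : ℕ} {θ θ' : Par p} (t w : ℕ → ZMod p) :
    (SolG (LW C n θ) (LW C n θ') t w).Finite :=
  (finite_supp (n + 1)).subset (fun _ hx u hu => hx.choose_spec.1.xs u (by omega))

theorem last_digit {C n : ℕ} {θ : Par p} {t w x : ℕ → ZMod p}
    (hx : x ∈ SolG (LW C n θ) (LW C n θ) t w) :
    w n = θ.lam * x n ^ 2 + θ.lam * (t n - x n) ^ 2 + ∑ v ∈ range n, θ.tau 0 2 v * t v := by
  obtain ⟨z, h1, h2⟩ := hx
  have e1 := h1.top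
  have e2 := h2.top
  simp only [Pi.sub_apply] at e2
  have e3 : ∑ v ∈ range n, θ.tau 0 2 v * (t v - x v) =
      ∑ v ∈ range n, θ.tau 0 2 v * t v - ∑ v ∈ range n, θ.tau 0 2 v * x v := by
    rw [← Finset.sum_sub_distrib]
    exact Finset.sum_congr rfl fun v _ => by ring
  rw [e3, e1] at e2
  linear_combination e2

/-- the last digit has at most two values -/
theorem last_step {C n : ℕ} {θ : Par p} (h2 : (2 : ZMod p) ≠ 0) (hlam : θ.lam ≠ 0)
    (t w : ℕ → ZMod p) : FB (SolG (LW C n θ) (LW C n θ) t w) n (n + 1) 2 := by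
  classical
  intro x hx
  set A := {y | y ∈ SolG (LW C n θ) (LW C n θ) t w ∧ trunc n y = trunc n x} with hA
  set Pol : Polynomial (ZMod p) := Polynomial.C (2 * θ.lam) * Polynomial.X ^ 2 +
    Polynomial.C (-(2 * θ.lam * t n)) * Polynomial.X +
    Polynomial.C (θ.lam * t n ^ 2 + ∑ v ∈ range n, θ.tau 0 2 v * t v - w n) with hPol
  have hP0 : Pol ≠ 0 := by
    intro h
    have h3 : Pol.coeff 2 = 2 * θ.lam := by
      rw [hPol, Polynomial.coeff_add, Polynomial.coeff_add, Polynomial.coeff_C_mul,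
        Polynomial.coeff_C_mul, Polynomial.coeff_X_pow, Polynomial.coeff_X, Polynomial.coeff_C]
      simp
    rw [h, Polynomial.coeff_zero] at h3
    exact mul_ne_zero h2 hlam h3.symm
  have hdeg : Pol.natDegree ≤ 2 := by
    rw [hPol]
    compute_degree
  have hmaps : ∀ v ∈ trunc (n + 1) '' A, v n ∈ (Pol.roots.toFinset : Set (ZMod p)) := by
    rintro v ⟨y, ⟨hyS, -⟩, rfl⟩
    have e1 : trunc (n + 1) y n = y n := by
      unfold trunc
      rw [if_pos (by omega)]
    rw [e1, Finset.mem_coe, Multiset.mem_toFinset, Polynomial.mem_roots hP0, Polynomial.IsRoot,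
      hPol]
    simp only [Polynomial.eval_add, Polynomial.eval_mul, Polynomial.eval_C, Polynomial.eval_pow,
      Polynomial.eval_X]
    have e2 := last_digit hyS
    linear_combination -e2
  have hinj : Set.InjOn (fun v : ℕ → ZMod p => v n) (trunc (n + 1) '' A) := by
    rintro v ⟨y, ⟨-, hyt⟩, rfl⟩ v' ⟨y', ⟨-, hyt'⟩, rfl⟩ h
    funext u
    have h3 := congrFun (hyt.trans hyt'.symm) u
    unfold trunc at h3 ⊢
    simp only [trunc] at h
    rw [if_pos (by omega), if_pos (by omega)] at h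
    by_cases hu : u < n
    · rw [if_pos hu, if_pos hu] at h3
      rw [if_pos (by omega), if_pos (by omega)]
      exact h3
    · by_cases hun : u = n
      · subst hun
        rw [if_pos (by omega), if_pos (by omega)]
        exact h
      · rw [if_neg (by omega), if_neg (by omega)]
  have hfin : (Pol.roots.toFinset : Set (ZMod p)).Finite := Finset.finite_toSet _
  refine ⟨Set.Finite.of_injOn hmaps hinj hfin, ?_⟩
  refine (Set.ncard_le_ncard_of_injOn _ hmaps hinj hfin).trans ?_
  rw [Set.ncard_coe_finset]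
  exact (Multiset.toFinset_card_le _).trans ((Polynomial.card_roots' Pol).trans hdeg)

/-- WA-8 (as `pair_self`, with one more quadratic equation for the last digit) -/
theorem pair_same {C n M : ℕ} (hC : 8 ≤ C) (hnM : n ≤ M) (hp : p ≠ 2) (θ : Par p)
    (hlam : θ.lam ≠ 0) (t w : ℕ → ZMod p) :
    (SolG (LW C n θ) (LW C n θ) t w).ncard ≤ GG C M := by
  have h2 : (2 : ZMod p) ≠ 0 := by
    intro h
    have h3 : ((2 : ℕ) : ZMod p) = 0 := by exact_mod_cast h
    rw [ZMod.natCast_eq_zero_iff] at h3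
    have h4 := (Nat.prime_dvd_prime_iff_eq (Fact.out : p.Prime) Nat.prime_two).1 h3
    exact hp h4
  have hlam2 : θ.lam + θ.lam ≠ 0 := by
    rw [← two_mul]
    exact mul_ne_zero h2 hlam
  obtain ⟨I, hI⟩ : ∃ I, I = Nat.log C M := ⟨_, rfl⟩
  unfold GG
  rw [← hI]
  have hN : n < C ^ (I + 1) := by
    rw [hI]
    exact lt_of_le_of_lt hnM (Nat.lt_pow_succ_log_self (by omega) M)
  have h0 : C ^ 0 = 1 := pow_zero C
  set S := SolG (LW C n θ) (LW C n θ) t w with hS
  have hSf : S.Finite := same_finite t w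
  let q : ℕ → ℕ := fun i => C ^ i * mm C (2 * n + 1) i
  have hchain := chain_two (S := S) hSf q (lo := 0) (hi := I + 1) (by omega)
    (fun i _ _ => Pool.Agent.Helper81.WA.shared_gen hC (LW C n θ) (LW C n θ)
      (fun _ _ h => h.rel i) (fun _ _ h => h.rel i) rfl rfl hlam2 t w)
  have htop : q (I + 1) = 0 := by
    change C ^ (I + 1) * mm C (2 * n + 1) (I + 1) = 0
    have := mm_top (C := C) (b := 0) (N := n) (I := I) (i := I + 1) (by omega) (by omega) hN
      (by omega)
    rw [h0] at this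
    rw [this, mul_zero]
  have hbase : q 0 = n := by
    change C ^ 0 * mm C (2 * n + 1) 0 = n
    have := mm_base (C := C) (b := 0) (N := n) (by omega) (by rw [h0]; exact one_dvd n)
    rw [h0, mul_one] at this
    rw [h0, one_mul, this]
  rw [htop, hbase] at hchain
  have hlast := chain_card hSf (last_step h2 hlam t w)
  have hsub : S ⊆ trunc (n + 1) '' S := by
    intro x hx
    refine ⟨x, hx, trunc_eq_self ?_⟩
    obtain ⟨z, h1, -⟩ := hx
    exact h1.xs
  have hN0 : 2 ≤ N0 C ^ 2 := by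
    have h4 : 1 ≤ C ^ 4 := Nat.one_le_pow _ _ (by omega)
    have h3 : 2 ≤ N0 C := by
      unfold N0
      calc 2 ≤ 2 * C ^ 4 + 1 := by omega
        _ = (2 * C ^ 4 + 1) ^ 1 := (pow_one _).symm
        _ ≤ (2 * C ^ 4 + 1) ^ (2 * C ^ 4) := Nat.pow_le_pow_right (by omega) (by omega)
    nlinarith
  calc S.ncard ≤ (trunc (n + 1) '' S).ncard := Set.ncard_le_ncard hsub (hSf.image _)
    _ ≤ 2 * (trunc n '' S).ncard := hlast
    _ ≤ 2 * (2 ^ (I + 1 - 0) * (trunc 0 '' S).ncard) := Nat.mul_le_mul_left _ hchain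
    _ ≤ 2 * (2 ^ (I + 1 - 0) * 1) :=
        Nat.mul_le_mul_left _ (Nat.mul_le_mul_left _ (trunc_zero_card S))
    _ = 2 ^ (I + 1) * 2 := by rw [mul_one, Nat.sub_zero, mul_comm]
    _ ≤ 2 ^ (I + 1) * N0 C ^ 2 := Nat.mul_le_mul_left _ hN0

end Pool.Agent.Helper26.WA
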